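import Pool.Agent.Lib.MP_20e1d9_lc.CheckPoly

section

/-!
Equality tests, finite functions, options and elements of `Fin n` for typed polynomial time
functions.
-/

set_option autoImplicit false
set_option linter.unusedSimpArgs false
set_option linter.unusedVariables false
set_option linter.unusedSectionVars false

namespace Pool.Agent.Lib.PLib

open Pool.Agent.Lib.MP_20e1d9_lc (PT PT.of_eq PT.of_word)
open Pool.Agent.Lib.MP_20e1d9_lc.PL
open Pool.Agent.Lib.MP_9c2350_lc

variable {α β γ σ δ : Type} [Enc α] [Enc β] [Enc γ] [Enc σ] [Enc δ]

/-! ### The code of a tree as a list of bits -/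

/-- The code of a tree, as a list of bits. -/
def bitsD (d : Dat) : List Bool := (code d).map fun s => decide (s = T)

/-- The program replacing a word over the two symbols by its code as a list of bits. -/
def toBits : Cmd Sym :=
  .seq (mv 0 1) (.seq (.push 0 F) (.loop 1 fun a =>
    .seq (wr 0 (word (decide (a = T)))) (.push 0 T)))

theorem runs_toBits_loop (x : List Sym) (y : List Bool) :
    Runs (.loop 1 fun a => .seq (wr 0 (word (decide (a = T)))) (.push 0 T))
      (cs (word y) (cs x.reverse E))
      (cs (word ((x.map fun s => decide (s = T)) ++ y)) E) (10 * x.length + 1) := by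
  induction x using List.reverseRecOn generalizing y with
  | nil =>
    refine (Runs.loop_nil rfl).to ?_ (by simp)
    simp
  | append_singleton x a ih =>
    have e : (x ++ [a]).reverse = a :: x.reverse := by simp
    rw [e]
    have h1 := runs_wr 0 (word (decide (a = T))) (cs (word y) (cs x.reverse E))
    simp only [update_cs_zero, cs_zero] at h1
    have h2 := Runs.push 0 T (cs (word (decide (a = T)) ++ word y) (cs x.reverse E))
    simp only [update_cs_zero, cs_zero] at h2
    have h3 := ih (decide (a = T) :: y)
    refine (Runs.loop_cons (k := 1) (a := a) (l := x.reverse) rfl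
      (s' := cs (word (decide (a = T) :: y)) (cs x.reverse E)) (B := 9) ?_ h3).to (by simp) ?_
    · simp only [update_cs_succ, update_cs_zero]
      refine (h1.seq h2).mono ?_
      have : (word (decide (a = T))).length ≤ 3 := sz_bool _
      omega
    · simp only [List.length_append, List.length_cons, List.length_nil]; omega

theorem runs_toBits (x : List Sym) :
    Runs toBits (cs x E) (cs (word (x.map fun s => decide (s = T))) E) (12 * x.length + 6) := by
  have h1 := runs_mv (i := 0) (j := 1) (by decide) (cs x E)
  simp only [update_cs_zero, cs_zero, update_cs_succ, cs_succ, update_E_zero,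
    update_E_succ, E_apply, List.append_nil, cs_nil_E, List.reverse_reverse] at h1
  have h2 := Runs.push 0 F (cs [] (cs x.reverse E))
  simp only [update_cs_zero, cs_zero] at h2
  have h3 := runs_toBits_loop x []
  rw [List.append_nil] at h3
  exact (h1.seq (h2.seq h3)).mono (by omega)

theorem bitsDPT : PT bitsD := by
  refine ⟨toBits, fun n => 12 * n + 6, ((PB.const 12).mul PB.id).add (PB.const 6), fun x => ?_⟩
  exact runs_toBits (word x)

/-- Codes are prefix free. -/
theorem code_append_inj {a b : Dat} {u v : List Sym} (h : code a ++ u = code b ++ v) :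
    a = b ∧ u = v := by
  induction a generalizing b u v with
  | nil =>
    cases b with
    | nil => simpa [code] using h
    | cons c d => simp [code] at h
  | cons a a' iha iha' =>
    cases b with
    | nil => simp [code] at h
    | cons c d =>
      simp only [code, List.cons_append, List.cons.injEq, true_and, List.append_assoc] at h
      obtain ⟨rfl, h2⟩ := iha h
      obtain ⟨rfl, h3⟩ := iha' h2
      exact ⟨rfl, h3⟩

theorem code_injective : Function.Injective code := by
  intro a b h
  exact (code_append_inj (u := []) (v := []) (by simpa using h)).1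

theorem mem_code (d : Dat) : ∀ s ∈ code d, s = T ∨ s = F := by
  induction d with
  | nil => intro s hs; right; simpa [code] using hs
  | cons a b iha ihb =>
    intro s hs
    simp only [code, List.mem_cons, List.mem_append] at hs
    rcases hs with hs | hs | hs
    · exact Or.inl hs
    · exact iha s hs
    · exact ihb s hs

theorem bitsD_injective : Function.Injective bitsD := by
  intro a b h
  apply code_injective
  unfold bitsD at h
  have key : ∀ l m : List Sym, (∀ s ∈ l, s = T ∨ s = F) → (∀ s ∈ m, s = T ∨ s = F) →
      (l.map fun s => decide (s = T)) = (m.map fun s => decide (s = T)) → l = m := by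
    intro l
    induction l with
    | nil =>
      intro m _ _ h
      cases m with
      | nil => rfl
      | cons _ _ => simp at h
    | cons x l ih =>
      intro m hl hm h
      cases m with
      | nil => simp at h
      | cons y m =>
        rw [List.map_cons, List.map_cons, List.cons.injEq] at h
        have h1 := ih m (fun s hs => hl s (by simp [hs])) (fun s hs => hm s (by simp [hs])) h.2
        have h2 := hl x (by simp)
        have h3 := hm y (by simp)
        have h4 := h.1
        rw [h1]
        congr 1
        rcases h2 with rfl | rfl <;> rcases h3 with rfl | rfl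
        · rfl
        · exact absurd h4 (by decide)
        · exact absurd h4 (by decide)
        · rfl
  exact key _ _ (mem_code a) (mem_code b) h

/-! ### Equality -/

theorem eqBool {f g : α → Bool} (hf : PT f) (hg : PT g) : PT (fun x => decide (f x = g x)) := by
  have h : PT fun x => !((f x && !(g x)) || (!(f x) && g x)) := by fun_prop
  exact h.of_eq fun x => by cases f x <;> cases g x <;> rfl

theorem eqBits {f g : α → List Bool} (hf : PT f) (hg : PT g) :
    PT (fun x => decide (f x = g x)) := by
  have h1 : PT fun x => (List.range (f x).length).all fun i =>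
      !(((f x).getD i false && !((g x).getD i false)) ||
        (!((f x).getD i false) && (g x).getD i false)) := by fun_prop
  have h : PT fun x => decide ((f x).length = (g x).length) &&
      (List.range (f x).length).all fun i =>
      !(((f x).getD i false && !((g x).getD i false)) ||
        (!((f x).getD i false) && (g x).getD i false)) := by fun_prop
  refine h.of_eq fun x => ?_
  have e : ∀ a b : Bool, (!((a && !b) || (!a && b))) = decide (a = b) := by
    intro a b; cases a <;> cases b <;> rfl
  simp only [e]
  rw [Bool.eq_iff_iff, Bool.and_eq_true, decide_eq_true_iff, decide_eq_true_iff, List.all_eq_true]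
  constructor
  · rintro ⟨h1, h2⟩
    refine List.ext_getElem h1 fun i hi hi' => ?_
    have h3 := h2 i (List.mem_range.2 hi)
    rw [decide_eq_true_iff] at h3
    rw [List.getD_eq_getElem _ _ hi, List.getD_eq_getElem _ _ hi'] at h3
    exact h3
  · intro h
    rw [h]
    simp

/-- Types with an injective encoding. -/
class EncI (α : Type) [Enc α] : Prop where
  inj : Function.Injective (Enc.enc : α → Dat)

/-- The tree of an element, as a function. -/
theorem encPT : PT (fun x : α => (Enc.enc x : Dat)) :=
  (MP_9c2350_lc.Poly.id (α := Dat)).of_word (fun x => Enc.enc x) (fun _ => rfl) (fun _ => rfl)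

@[fun_prop]
theorem eq [EncI γ] {f g : α → γ} [∀ x, Decidable (f x = g x)] (hf : PT f) (hg : PT g) :
    PT (fun x => decide (f x = g x)) := by
  have h : PT fun x => decide (bitsD (Enc.enc (f x)) = bitsD (Enc.enc (g x))) :=
    eqBits (bitsDPT.comp (encPT.comp hf)) (bitsDPT.comp (encPT.comp hg))
  refine h.of_eq fun x => ?_
  rw [Bool.eq_iff_iff, decide_eq_true_iff, decide_eq_true_iff]
  exact ⟨fun h => EncI.inj (bitsD_injective h), fun h => by rw [h]⟩

@[fun_prop]
theorem beq [EncI γ] [BEq γ] [LawfulBEq γ] {f g : α → γ} (hf : PT f) (hg : PT g) :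
    PT (fun x => f x == g x) := by
  classical
  exact (eq hf hg).of_eq fun x => by
    rw [Bool.eq_iff_iff, decide_eq_true_iff, beq_iff_eq]

instance : EncI Dat := ⟨fun _ _ h => h⟩
instance : EncI Unit := ⟨fun _ _ _ => rfl⟩
instance : EncI Bool := ⟨fun a b h => by
  cases a <;> cases b
  · rfl
  · exact absurd h (by intro h; cases h)
  · exact absurd h (by intro h; cases h)
  · rfl⟩
instance [EncI α] [EncI β] : EncI (α × β) := ⟨fun a b h => by
  have h' : Dat.cons (Enc.enc a.1) (Enc.enc a.2) = Dat.cons (Enc.enc b.1) (Enc.enc b.2) := h
  rw [Dat.cons.injEq] at h'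
  exact Prod.ext (EncI.inj h'.1) (EncI.inj h'.2)⟩
instance [EncI α] : EncI (List α) := ⟨fun a b h => by
  induction a generalizing b with
  | nil =>
    cases b with
    | nil => rfl
    | cons y b => exact absurd h (by intro h; cases h)
  | cons x a ih =>
    cases b with
    | nil => exact absurd h (by intro h; cases h)
    | cons y b =>
      have h' : Dat.cons (Enc.enc x) (Enc.enc a) = Dat.cons (Enc.enc y) (Enc.enc b) := h
      rw [Dat.cons.injEq] at h'
      rw [EncI.inj h'.1, ih b h'.2]⟩
instance : EncI ℕ := ⟨fun a b h => by
  have h' : (Enc.enc (List.replicate a ()) : Dat) = Enc.enc (List.replicate b ()) := h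
  have := congrArg List.length (EncI.inj h')
  simpa using this⟩
instance : EncI Sym := ⟨fun a b h => by
  have h' : unD (syms.idxOf a) = unD (syms.idxOf b) := h
  have h2 : Function.Injective unD := by
    intro m n h
    induction m generalizing n with
    | zero => cases n with
      | zero => rfl
      | succ n => exact absurd h (by intro h; cases h)
    | succ m ih => cases n with
      | zero => exact absurd h (by intro h; cases h)
      | succ n =>
        simp only [unD, Dat.cons.injEq, true_and] at h
        rw [ih h]
  have h3 := h2 h'
  revert h3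
  cases a <;> cases b <;> decide⟩

/-- Options as lists. -/
instance : Enc (Option α) := ⟨fun o => Enc.enc o.toList⟩

instance [EncI α] : EncI (Option α) := ⟨fun a b h => by
  have h' : (Enc.enc a.toList : Dat) = Enc.enc b.toList := h
  have := EncI.inj h'
  cases a <;> cases b <;> simp_all⟩

/-- Elements of `Fin n` as unary numbers. -/
instance {n : ℕ} : Enc (Fin n) := ⟨fun i => Enc.enc i.val⟩

instance {n : ℕ} : EncI (Fin n) := ⟨fun a b h => by
  have h' : (Enc.enc a.val : Dat) = Enc.enc b.val := h
  exact Fin.ext (EncI.inj h')⟩

/-! ### Options -/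

@[fun_prop]
theorem someC {f : α → γ} (hf : PT f) : PT (fun x => some (f x)) :=
  PT.of_word (g := fun x => [f x]) (by fun_prop) (fun x => x) (fun _ => rfl) (fun _ => rfl)

@[fun_prop]
theorem toList {f : α → Option γ} (hf : PT f) : PT (fun x => (f x).toList) :=
  hf.of_word (fun x => x) (fun _ => rfl) (fun _ => rfl)

theorem listCase {l : α → List γ} {f : α → β} {g : α → γ → List γ → β} (hl : PT l) (hf : PT f)
    (hg : PT fun y : α × γ × List γ => g y.1 y.2.1 y.2.2) :
    PT (fun x => match l x with
      | [] => f x
      | a :: t => g x a t) :=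
  MP_9c2350_lc.Poly.listCase (g := fun y : α × γ × List γ => g y.1 y.2.1 y.2.2) hl hf hg

@[fun_prop]
theorem head? {l : α → List γ} (hl : PT l) : PT (fun x => (l x).head?) := by
  have h := listCase (f := fun _ => ([] : List γ)) (g := fun _ a _ => [a]) hl (by fun_prop)
    (by fun_prop)
  refine PT.of_word h (fun x => x) (fun _ => rfl) (fun x => ?_)
  cases h : l x <;> simp [h] <;> rfl

@[fun_prop]
theorem elim {o : α → Option γ} {d : α → β} {f : α → γ → β} (ho : PT o) (hd : PT d)
    (hf : PT fun p : α × γ => f p.1 p.2) : PT (fun x => (o x).elim (d x) (f x)) := by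
  have h := listCase (g := fun x a _ => f x a) (toList ho) hd
    (PT.comp (f := fun p : α × γ => f p.1 p.2) (g := fun y : α × γ × List γ => (y.1, y.2.1)) hf
      (by fun_prop))
  exact h.of_eq fun x => by cases o x <;> rfl

@[fun_prop]
theorem getDO {o : α → Option γ} {d : α → γ} (ho : PT o) (hd : PT d) :
    PT (fun x => (o x).getD (d x)) :=
  (elim (f := fun _ c => c) ho hd (by fun_prop)).of_eq fun x => by cases o x <;> rfl

@[fun_prop]
theorem isSome {o : α → Option γ} (ho : PT o) : PT (fun x => (o x).isSome) :=
  (elim (d := fun _ => false) (f := fun _ _ => true) ho (by fun_prop) (by fun_prop)).of_eq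
    fun x => by cases o x <;> rfl

@[fun_prop]
theorem mapO {o : α → Option γ} {f : α → γ → β} (ho : PT o)
    (hf : PT fun p : α × γ => f p.1 p.2) : PT (fun x => (o x).map (f x)) :=
  (elim (d := fun _ => none) (f := fun x c => some (f x c)) ho (by fun_prop)
    (by fun_prop)).of_eq fun x => by cases o x <;> rfl

@[fun_prop]
theorem bindO {o : α → Option γ} {f : α → γ → Option β} (ho : PT o)
    (hf : PT fun p : α × γ => f p.1 p.2) : PT (fun x => (o x).bind (f x)) :=
  (elim (d := fun _ => none) ho (by fun_prop) hf).of_eq fun x => by cases o x <;> rfl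

@[fun_prop]
theorem valF {n : ℕ} {f : α → Fin n} (hf : PT f) : PT (fun x => (f x).val) :=
  hf.of_word (fun x => x) (fun _ => rfl) (fun _ => rfl)

/-! ### Finite functions -/

/-- A function which differs from a constant only at finitely many places. -/
theorem of_list [EncI α] [DecidableEq α] (l : List α) (f : α → β) (d : β)
    (h : ∀ x, x ∉ l → f x = d) : PT f := by
  induction l generalizing f with
  | nil => exact (const d).of_eq fun x => (h x (by simp)).symm
  | cons a l ih =>
    have h1 : PT fun x => if x = a then f a else (if x = a then d else f x) :=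
      ite (by fun_prop) (by fun_prop) (ih (fun x => if x = a then d else f x) (by
        intro x hx
        by_cases hxa : x = a
        · simp [hxa]
        · simp only [hxa, if_false]
          exact h x (by simp [hxa, hx])))
    refine h1.of_eq fun x => ?_
    by_cases hxa : x = a
    · simp [hxa]
    · simp [hxa]

/-- Functions on finite types. -/
theorem of_finite [EncI α] [Finite α] (f : α → β) : PT f := by
  classical
  have : Fintype α := Fintype.ofFinite α
  rcases isEmpty_or_nonempty α with h | h
  · refine ⟨.skip, fun _ => 1, PB.const 1, fun x => (h.false x).elim⟩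
  · exact of_list Finset.univ.toList f (f (Classical.arbitrary α)) (by
      intro x hx
      exact absurd (Finset.mem_toList.2 (Finset.mem_univ x)) hx)

theorem of_finite' [EncI γ] [Finite γ] (f : γ → β) {g : α → γ} (hg : PT g) :
    PT (fun x => f (g x)) := (of_finite f).comp hg

/-- Membership in a fixed finite list. -/
theorem memConst [EncI γ] [DecidableEq γ] (l : List γ) {f : α → γ} (hf : PT f) :
    PT (fun x => decide (f x ∈ l)) := by
  have h : PT fun y : γ => decide (y ∈ l) :=
    of_list l (fun y => decide (y ∈ l)) false (fun x hx => by simp [hx])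
  exact h.comp hf

/-- A number as an element of `Fin n`. -/
def toFin (n m : ℕ) : Option (Fin n) := if h : m < n then some ⟨m, h⟩ else none

theorem toFinPT (n : ℕ) : PT (toFin n) :=
  of_list (List.range n) (toFin n) none (fun m hm => by
    rw [List.mem_range] at hm
    simp [toFin, hm])

@[fun_prop]
theorem toFinPT' (n : ℕ) {f : α → ℕ} (hf : PT f) : PT (fun x => toFin n (f x)) :=
  (toFinPT n).comp hf

/-! ### Membership -/

@[fun_prop]
theorem mem [EncI γ] {f : α → γ} {l : α → List γ} [∀ x, Decidable (f x ∈ l x)] (hf : PT f)
    (hl : PT l) : PT (fun x => decide (f x ∈ l x)) := by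
  classical
  have h : PT fun x => (l x).any fun b => decide (b = f x) := by fun_prop
  exact h.of_eq fun x => by
    rw [Bool.eq_iff_iff, List.any_eq_true, decide_eq_true_iff]
    simp

end Pool.Agent.Lib.PLib
end

section

/-!
Lists, folds, iterations, searches and unary arithmetic for typed polynomial time functions.
-/

set_option autoImplicit false
set_option linter.unusedSimpArgs false
set_option linter.unusedVariables false
set_option linter.unusedSectionVars false

namespace Pool.Agent.Lib.PLib

open Pool.Agent.Lib.MP_20e1d9_lc (PT PT.of_eq PT.of_word PT.size)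
open Pool.Agent.Lib.MP_20e1d9_lc.PL
open Pool.Agent.Lib.MP_9c2350_lc

variable {α β γ σ δ : Type} [Enc α] [Enc β] [Enc γ] [Enc σ] [Enc δ]

/-! ### Folds -/

/-- Folds whose intermediate values have polynomial size. -/
theorem foldlB {l : α → List γ} {s0 : α → σ} {step : α → σ → γ → σ} (hl : PT l) (h0 : PT s0)
    (hs : PT fun y : α × σ × γ => step y.1 y.2.1 y.2.2) {q : ℕ → ℕ} (hq : PB q)
    (hb : ∀ x, ∀ l', l' <+: l x → sz (l'.foldl (step x) (s0 x)) ≤ q (sz x)) :
    PT (fun x => (l x).foldl (step x) (s0 x)) :=
  MP_9c2350_lc.Poly.foldl (step := fun y : α × (σ × γ) => step y.1 y.2.1 y.2.2) hl h0 hs hq hb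

/-- Folds whose steps increase the size of the value by a polynomial amount in the size of the
input. -/
theorem foldlA {l : α → List γ} {s0 : α → σ} {step : α → σ → γ → σ} (hl : PT l) (h0 : PT s0)
    (hs : PT fun y : α × σ × γ => step y.1 y.2.1 y.2.2) {q : ℕ → ℕ} (hq : PB q)
    (hb : ∀ x s b, b ∈ l x → sz (step x s b) ≤ sz s + q (sz x)) :
    PT (fun x => (l x).foldl (step x) (s0 x)) := by
  obtain ⟨ql, hql, Hql⟩ := hl.size
  obtain ⟨q0, hq0, Hq0⟩ := h0.size
  refine foldlB hl h0 hs (q := fun n => q0 n + ql n * q n) (hq0.add (hql.mul hq)) ?_
  intro x l' hl'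
  have h1 : ∀ (m : List γ) (s : σ), (∀ b ∈ m, b ∈ l x) →
      sz (m.foldl (step x) s) ≤ sz s + m.length * q (sz x) := by
    intro m
    induction m with
    | nil => intro s _; simp
    | cons b m ih =>
      intro s hm
      have h2 := ih (step x s b) (fun c hc => hm c (by simp [hc]))
      have h3 := hb x s b (hm b (by simp))
      rw [List.foldl_cons, List.length_cons, Nat.succ_mul]
      omega
  refine (h1 l' (s0 x) (fun b hb => hl'.subset hb)).trans ?_
  have h2 := Hq0 x
  have h3 : l'.length ≤ ql (sz x) := (length_le_sz l').le.trans ((sz_take_le hl').trans (Hql x))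
  have h4 := Nat.mul_le_mul_right (q (sz x)) h3
  show _ ≤ q0 (sz x) + ql (sz x) * q (sz x)
  omega

/-- Folds with values in a finite type. -/
theorem foldlF [Finite σ] {l : α → List γ} {s0 : α → σ} {step : α → σ → γ → σ} (hl : PT l)
    (h0 : PT s0) (hs : PT fun y : α × σ × γ => step y.1 y.2.1 y.2.2) :
    PT (fun x => (l x).foldl (step x) (s0 x)) := by
  classical
  have : Fintype σ := Fintype.ofFinite σ
  refine foldlB hl h0 hs (q := fun _ => ∑ s : σ, sz s) (PB.const _) ?_
  intro x l' _
  exact Finset.single_le_sum (f := fun s : σ => sz s) (fun _ _ => Nat.zero_le _)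
    (Finset.mem_univ _)

/-- Iteration, if the intermediate values have polynomial size. -/
theorem iterateB {n : α → ℕ} {s0 : α → σ} {f : α → σ → σ} (hn : PT n) (h0 : PT s0)
    (hf : PT fun y : α × σ => f y.1 y.2) {q : ℕ → ℕ} (hq : PB q)
    (hb : ∀ x, ∀ k ≤ n x, sz ((f x)^[k] (s0 x)) ≤ q (sz x)) :
    PT (fun x => (f x)^[n x] (s0 x)) := by
  have e : ∀ (x : α) (l : List ℕ) (s : σ), l.foldl (fun s _ => f x s) s = (f x)^[l.length] s := by
    intro x l
    induction l with
    | nil => intro s; rfl
    | cons a l ih => intro s; rw [List.foldl_cons, ih]; rfl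
  have h := foldlB (l := fun x => List.range (n x)) (s0 := s0) (step := fun x s _ => f x s)
    (by fun_prop) h0 (PT.comp (f := fun y : α × σ => f y.1 y.2)
      (g := fun y : α × σ × ℕ => (y.1, y.2.1)) hf (by fun_prop)) hq (by
      intro x l' hl'
      rw [e]
      refine hb x _ ?_
      have := hl'.length_le
      rwa [List.length_range] at this)
  exact h.of_eq fun x => by rw [e, List.length_range]

/-- Iteration, if each step increases the size by a polynomial amount. -/
theorem iterateA {n : α → ℕ} {s0 : α → σ} {f : α → σ → σ} (hn : PT n) (h0 : PT s0)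
    (hf : PT fun y : α × σ => f y.1 y.2) {q : ℕ → ℕ} (hq : PB q)
    (hb : ∀ x s, sz (f x s) ≤ sz s + q (sz x)) :
    PT (fun x => (f x)^[n x] (s0 x)) := by
  obtain ⟨qn, hqn, Hqn⟩ := hn.size
  obtain ⟨q0, hq0, Hq0⟩ := h0.size
  refine iterateB hn h0 hf (q := fun m => q0 m + qn m * q m) (hq0.add (hqn.mul hq)) ?_
  intro x k hk
  have h1 : ∀ k, sz ((f x)^[k] (s0 x)) ≤ sz (s0 x) + k * q (sz x) := by
    intro k
    induction k with
    | zero => simp
    | succ k ih =>
      rw [Function.iterate_succ_apply', Nat.succ_mul]
      have := hb x ((f x)^[k] (s0 x))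
      omega
  have h2 := Hq0 x
  have h3 := Hqn x
  rw [sz_nat] at h3
  have h4 : k * q (sz x) ≤ qn (sz x) * q (sz x) := Nat.mul_le_mul_right _ (by omega)
  have h5 := h1 k
  show _ ≤ q0 (sz x) + qn (sz x) * q (sz x)
  omega

/-! ### Selections -/

@[fun_prop]
theorem filter {l : α → List γ} {p : α → γ → Bool} (hl : PT l)
    (hp : PT fun y : α × γ => p y.1 y.2) : PT (fun x => (l x).filter (p x)) := by
  have h : PT fun x => (l x).flatMap fun b => if p x b = true then [b] else [] := by fun_prop
  refine h.of_eq fun x => ?_
  induction l x with
  | nil => rfl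
  | cons b m ih =>
    rw [List.flatMap_cons, ih, List.filter_cons]
    split_ifs <;> rfl

@[fun_prop]
theorem filterMap {l : α → List γ} {f : α → γ → Option β} (hl : PT l)
    (hf : PT fun y : α × γ => f y.1 y.2) : PT (fun x => (l x).filterMap (f x)) := by
  have h : PT fun x => (l x).flatMap fun b => (f x b).toList := by fun_prop
  refine h.of_eq fun x => ?_
  induction l x with
  | nil => rfl
  | cons b m ih =>
    rw [List.flatMap_cons, ih, List.filterMap_cons]
    cases f x b <;> rfl

@[fun_prop]
theorem find? {l : α → List γ} {p : α → γ → Bool} (hl : PT l)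
    (hp : PT fun y : α × γ => p y.1 y.2) : PT (fun x => (l x).find? (p x)) := by
  have h : PT fun x => ((l x).filter (p x)).head? := by fun_prop
  refine h.of_eq fun x => ?_
  induction l x with
  | nil => rfl
  | cons b m ih =>
    rw [List.filter_cons, List.find?_cons]
    cases h : p x b <;> simp [h, ih]

@[fun_prop]
theorem findSome? {l : α → List γ} {f : α → γ → Option β} (hl : PT l)
    (hf : PT fun y : α × γ => f y.1 y.2) : PT (fun x => (l x).findSome? (f x)) := by
  have h : PT fun x => ((l x).filterMap (f x)).head? := by fun_prop
  refine h.of_eq fun x => ?_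
  induction l x with
  | nil => rfl
  | cons b m ih =>
    rw [List.filterMap_cons, List.findSome?_cons]
    cases h : f x b <;> simp [h, ih]

@[fun_prop]
theorem countP {l : α → List γ} {p : α → γ → Bool} (hl : PT l)
    (hp : PT fun y : α × γ => p y.1 y.2) : PT (fun x => (l x).countP (p x)) := by
  have h : PT fun x => ((l x).filter (p x)).length := by fun_prop
  exact h.of_eq fun x => List.countP_eq_length_filter.symm

@[fun_prop]
theorem count [EncI γ] [BEq γ] [LawfulBEq γ] {l : α → List γ} {a : α → γ} (hl : PT l) (ha : PT a) :
    PT (fun x => (l x).count (a x)) := by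
  have h : PT fun x => (l x).countP fun b => b == a x := by fun_prop
  exact h.of_eq fun x => rfl

@[fun_prop]
theorem tail {l : α → List γ} (hl : PT l) : PT (fun x => (l x).tail) :=
  MP_9c2350_lc.Poly.tail hl

@[fun_prop]
theorem take {l : α → List γ} {n : α → ℕ} (hl : PT l) (hn : PT n) :
    PT (fun x => (l x).take (n x)) := by
  have h : PT fun x => ((l x).reverse.drop ((l x).length - n x)).reverse := by fun_prop
  refine h.of_eq fun x => ?_
  rw [List.drop_reverse]
  rw [List.reverse_reverse]
  rcases Nat.le_total (n x) (l x).length with h | h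
  · congr 1; omega
  · rw [List.take_of_length_le h, List.take_of_length_le (by omega)]

@[fun_prop]
theorem getL? {l : α → List γ} {n : α → ℕ} (hl : PT l) (hn : PT n) :
    PT (fun x => (l x)[n x]?) := by
  have h : PT fun x => ((l x).drop (n x)).head? := by fun_prop
  exact h.of_eq fun x => List.head?_drop ..

/-- Lookup with a computed default value. -/
@[fun_prop]
theorem getDc {l : α → List γ} {n : α → ℕ} {d : α → γ} (hl : PT l) (hn : PT n) (hd : PT d) :
    PT (fun x => (l x).getD (n x) (d x)) := by
  have h : PT fun x => ((l x)[n x]?).getD (d x) := by fun_prop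
  exact h.of_eq fun x => (List.getD_eq_getElem?_getD ..).symm

/-- The list of the pairs of an index and an element. -/
@[fun_prop]
theorem zip {l : α → List γ} {m : α → List δ} (hl : PT l) (hm : PT m) :
    PT (fun x => (l x).zip (m x)) := by
  have h : PT fun x => (List.range (min (l x).length (m x).length)).filterMap fun i =>
      ((l x)[i]?).bind fun a => ((m x)[i]?).map fun b => (a, b) := by
    have hmin : PT fun x => min (l x).length (m x).length := by
      have h1 : PT fun x => if (l x).length ≤ (m x).length then (l x).length else (m x).length := by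
        fun_prop
      exact h1.of_eq fun x => rfl
    fun_prop
  refine h.of_eq fun x => ?_
  generalize l x = l
  generalize m x = m
  have e : ∀ k ≤ min l.length m.length, (List.range k).filterMap (fun i =>
      (l[i]?).bind fun a => (m[i]?).map fun b => (a, b)) = (l.zip m).take k := by
    intro k
    induction k with
    | zero => intro _; rfl
    | succ k ih =>
      intro hk
      rw [List.range_succ, List.filterMap_append, ih (by omega)]
      have h1 : k < l.length := by omega
      have h2 : k < m.length := by omega
      have h3 : k < (l.zip m).length := by rw [List.length_zip]; omega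
      rw [List.take_succ_eq_append_getElem h3]
      simp [h1, h2, List.getElem_zip]
  rw [e _ le_rfl, List.take_of_length_le (by rw [List.length_zip])]

@[fun_prop]
theorem zipWith {l : α → List γ} {m : α → List δ} {f : α → γ → δ → β} (hl : PT l) (hm : PT m)
    (hf : PT fun y : α × γ × δ => f y.1 y.2.1 y.2.2) :
    PT (fun x => List.zipWith (f x) (l x) (m x)) := by
  have h : PT fun x => ((l x).zip (m x)).map fun b => f x b.1 b.2 := by
    have : PT fun y : α × γ × δ => f y.1 y.2.1 y.2.2 := hf
    exact map (f := fun (x : α) (b : γ × δ) => f x b.1 b.2) (zip hl hm) this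
  exact h.of_eq fun x => by rw [List.zip_eq_zipWith, List.map_zipWith]

@[fun_prop]
theorem findIdx {l : α → List γ} {p : α → γ → Bool} (hl : PT l)
    (hp : PT fun y : α × γ => p y.1 y.2) : PT (fun x => (l x).findIdx (p x)) := by
  have h1 : PT fun y : α × ℕ => ((l y.1).take (y.2 + 1)).any (p y.1) :=
    any (f := fun (y : α × ℕ) (c : γ) => p y.1 c) (by fun_prop)
      (PT.comp (f := fun y : α × γ => p y.1 y.2) (g := fun y : (α × ℕ) × γ => (y.1.1, y.2)) hp
        (by fun_prop))
  have h : PT fun x => ((List.range (l x).length).filter fun i =>
      !(((l x).take (i + 1)).any (p x))).length := by fun_prop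
  refine h.of_eq fun x => ?_
  generalize l x = m
  generalize p x = r
  have e : ∀ k, ((List.range k).filter fun i => !((m.take (i + 1)).any r)).length =
      min k (if ∀ a ∈ m, r a = false then k else m.findIdx r) := by
    intro k
    induction k with
    | zero => simp
    | succ k ih =>
      rw [List.range_succ, List.filter_append, List.length_append, ih]
      by_cases hall : ∀ a ∈ m, r a = false
      · rw [if_pos hall, if_pos hall]
        have : (m.take (k + 1)).any r = false := by
          rw [List.any_eq_false]
          intro a ha
          rw [hall a (List.mem_of_mem_take ha)]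
          simp
        simp [this]
      · rw [if_neg hall, if_neg hall]
        by_cases hk : m.findIdx r ≤ k
        · have h2 : (m.take (k + 1)).any r = true := by
            rw [List.any_eq_true]
            have h3 : m.findIdx r < m.length := by
              rw [List.findIdx_lt_length]
              by_contra hne
              apply hall
              intro a ha
              by_contra hra
              exact hne ⟨a, ha, by simpa using hra⟩
            refine ⟨m[m.findIdx r], ?_, List.findIdx_getElem⟩
            rw [List.mem_take_iff_getElem]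
            exact ⟨m.findIdx r, by omega, rfl⟩
          simp [h2]
          omega
        · have h2 : (m.take (k + 1)).any r = false := by
            rw [List.any_eq_false]
            intro a ha
            rw [List.mem_take_iff_getElem] at ha
            obtain ⟨i, hi, rfl⟩ := ha
            have := List.not_of_lt_findIdx (p := r) (xs := m) (i := i) (by omega)
            simpa using this
          simp [h2]
          omega
  rw [e]
  by_cases hall : ∀ a ∈ m, r a = false
  · rw [if_pos hall, min_self]
    symm
    rw [List.findIdx_eq_length]
    exact hall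
  · rw [if_neg hall]
    exact min_eq_right List.findIdx_le_length

@[fun_prop]
theorem idxOf [EncI γ] [BEq γ] [LawfulBEq γ] {l : α → List γ} {a : α → γ} (hl : PT l) (ha : PT a) :
    PT (fun x => (l x).idxOf (a x)) := by
  have h : PT fun x => (l x).findIdx fun b => b == a x := by fun_prop
  exact h.of_eq fun x => rfl

@[fun_prop]
theorem flatten {l : α → List (List γ)} (hl : PT l) : PT (fun x => (l x).flatten) := by
  have h : PT fun x => (l x).flatMap fun b => b := by fun_prop
  exact h.of_eq fun x => by simp [List.flatMap_def]

/-! ### Unary arithmetic -/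

@[fun_prop]
theorem minN {f g : α → ℕ} (hf : PT f) (hg : PT g) : PT (fun x => min (f x) (g x)) := by
  have h : PT fun x => if f x ≤ g x then f x else g x := by fun_prop
  exact h.of_eq fun x => rfl

@[fun_prop]
theorem maxN {f g : α → ℕ} (hf : PT f) (hg : PT g) : PT (fun x => max (f x) (g x)) := by
  have h : PT fun x => if f x ≤ g x then g x else f x := by fun_prop
  exact h.of_eq fun x => rfl

@[fun_prop]
theorem sumN {l : α → List ℕ} (hl : PT l) : PT (fun x => (l x).sum) := by
  have h : PT fun x => ((l x).flatMap fun n => List.replicate n ()).length := by fun_prop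
  exact h.of_eq fun x => by
    rw [List.length_flatMap]
    simp

@[fun_prop]
theorem dnot {p : α → Prop} [∀ x, Decidable (p x)] (hp : PT fun x => decide (p x)) :
    PT (fun x => decide (¬ p x)) :=
  (not hp).of_eq fun x => by simp

@[fun_prop]
theorem dimp {p q : α → Prop} [∀ x, Decidable (p x)] [∀ x, Decidable (q x)]
    (hp : PT fun x => decide (p x)) (hq : PT fun x => decide (q x)) :
    PT (fun x => decide (p x → q x)) := by
  have h : PT fun x => !(decide (p x)) || decide (q x) := by fun_prop
  exact h.of_eq fun x => by by_cases hp : p x <;> by_cases hq : q x <;> simp [hp, hq]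

/-- The fold of addition over a range. -/
@[fun_prop]
theorem dall {l : α → List γ} {p : α → γ → Prop} [∀ x b, Decidable (p x b)] (hl : PT l)
    (hp : PT fun y : α × γ => decide (p y.1 y.2)) :
    PT (fun x => decide (∀ b ∈ l x, p x b)) := by
  have h : PT fun x => (l x).all fun b => decide (p x b) := by fun_prop
  exact h.of_eq fun x => by rw [Bool.eq_iff_iff, List.all_eq_true]; simp

@[fun_prop]
theorem dex {l : α → List γ} {p : α → γ → Prop} [∀ x b, Decidable (p x b)] (hl : PT l)
    (hp : PT fun y : α × γ => decide (p y.1 y.2)) :
    PT (fun x => decide (∃ b ∈ l x, p x b)) := by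
  have h : PT fun x => (l x).any fun b => decide (p x b) := by fun_prop
  exact h.of_eq fun x => by rw [Bool.eq_iff_iff, List.any_eq_true]; simp

end Pool.Agent.Lib.PLib
end
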