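import Pool.Agent.Lib.MP_20e1d9_lc.CheckPoly
import Pool.Agent.Lib.MP_20e1d9_lc.InTimeTM
import Pool.Agent.Lib.PolyTime.Reduce
import Pool.Agent.Lib.PLib.Lists

section

/-!
From typed polynomial time functions (`PT`) to polynomial time functions in the sense of the
Prelude.
-/

set_option autoImplicit false

namespace Pool.Agent.Lib.PLib

open Function Encodable Turing
open Pool.Agent.Lib.PolyTime
open Pool.Agent.Lib.MP_20e1d9_lc (PT InTime InTime.of_tm2 PT.of_eq)
open Pool.Agent.Lib.MP_20e1d9_lc.PL
open Pool.Agent.Lib.MP_9c2350_lc (Sym Enc word sz dig)

/-- Numbers of the symbols. -/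
@[instance_reducible]
def symEnc : Encodable Sym where
  encode a := match a with
    | .zero => 0
    | .one => 1
    | .slash => 2
    | .comma => 3
    | .semi => 4
    | .bar => 5
  decode n := match n with
    | 0 => some .zero
    | 1 => some .one
    | 2 => some .slash
    | 3 => some .comma
    | 4 => some .semi
    | 5 => some .bar
    | _ => none
  encodek a := by cases a <;> rfl

attribute [local instance] symEnc

local instance : Inhabited Sym := ⟨.zero⟩

/-- Polynomial time word functions are computed by structured programs in polynomial time. -/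
theorem isPoly_of_poly {f : List Sym → List Sym} (hf : MP_9c2350_lc.Poly f) :
    IsPoly (fun _ => True) (fun x : List Sym => x) f := by
  obtain ⟨TC⟩ := MP_9c2350_lc.tm_of_poly hf
  obtain ⟨C, hC⟩ := InTime.of_tm2 (X := fun _ : List Sym => True) (ea := fun x => x)
    (F := fun x => f x)
    TC.tm TC.inputAlphabet TC.outputAlphabet (fun x => TC.time.eval x.length)
    (fun x _ => ⟨TC.outputsFun x⟩)
  have h : InTime (fun _ : List Sym => True) (fun x => x) f
      (fun x => (Polynomial.C C * (TC.time + Polynomial.X + 1)).eval x.length) := by
    refine hC.mono (fun _ h => h) ?_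
    intro x _
    simp
  obtain ⟨ι, τ, hι, hτ, τ₀, hlen, h⟩ := h
  exact ⟨ι, τ, hι, hτ, τ₀, Polynomial.C C * (TC.time + Polynomial.X + 1), hlen, h⟩

theorem flatMap_singleton' {α β : Type} (g : α → β) (l : List α) :
    l.flatMap (fun a => [g a]) = l.map g := by
  induction l with
  | nil => rfl
  | cons a l ih => rw [List.flatMap_cons, ih]; rfl

/-- Typed polynomial time functions on bit strings are computed by structured programs in
polynomial time. -/
theorem isPoly_of_PT {f : List Bool → List Bool} (hf : PT f) :
    IsPoly (fun _ => True) (fun x : List Bool => x) f := by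
  -- the function on words of symbols
  let g : List Sym → List Sym := fun l =>
    (f (l.map fun s => decide (s = Sym.one))).map fun b => if b = true then Sym.one else Sym.zero
  have hone : PT (fun l : List Sym => l.map fun s => decide (s = Sym.one)) := by
    refine map (f := fun (_ : List Sym) (s : Sym) => decide (s = Sym.one)) (by fun_prop) ?_
    exact MP_9c2350_lc.Poly.eqSym MP_9c2350_lc.Poly.snd Sym.one
  have hg : PT g := by
    show PT fun l : List Sym => (f (l.map fun s => decide (s = Sym.one))).map fun b =>
      if b = true then Sym.one else Sym.zero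
    have h1 := PT.comp hf hone
    exact map (f := fun (_ : List Sym) (b : Bool) => if b = true then Sym.one else Sym.zero)
      h1 (by fun_prop)
  have h1 := isPoly_of_poly hg
  have h2 : IsPoly (fun _ => True) (fun x : List Bool => x)
      (fun x => x.map fun b => if b = true then Sym.one else Sym.zero) := by
    refine (IsPoly.flatMap fun b : Bool => [if b = true then Sym.one else Sym.zero]).congr ?_
    intro x _
    exact flatMap_singleton' _ x
  have h3 := IsPoly.comp (φ := fun x : List Bool => x.map fun b =>
    if b = true then Sym.one else Sym.zero) h1 h2 (fun _ _ => trivial)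
  have h4 : IsPoly (fun _ => True) (fun x : List Sym => x)
      (fun x => x.map fun s => decide (s = Sym.one)) := by
    refine (IsPoly.flatMap fun s : Sym => [decide (s = Sym.one)]).congr ?_
    intro x _
    exact flatMap_singleton' _ x
  have h5 := IsPoly.comp (φ := fun x : List Bool => g (x.map fun b =>
    if b = true then Sym.one else Sym.zero)) h4 h3 (fun _ _ => trivial)
  refine h5.congr fun x _ => ?_
  have e : ∀ l : List Bool, (l.map fun b => if b = true then Sym.one else Sym.zero).map
      (fun s => decide (s = Sym.one)) = l := by
    intro l
    rw [List.map_map]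
    conv_rhs => rw [← List.map_id l]
    refine List.map_congr_left fun b _ => ?_
    cases b <;> rfl
  show (g (x.map fun b => if b = true then Sym.one else Sym.zero)).map
    (fun s => decide (s = Sym.one)) = f x
  show ((f ((x.map fun b => if b = true then Sym.one else Sym.zero).map
    fun s => decide (s = Sym.one))).map fun b => if b = true then Sym.one else Sym.zero).map
      (fun s => decide (s = Sym.one)) = f x
  rw [e, e]

/-- Typed polynomial time functions on codes are polynomial time computable. -/
theorem isPolyTime_of_PT_word {α β : Type} [N487b59b3 α] [N487b59b3 β] {f : α → β}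
    {g : List Bool → List Bool} (hg : PT g)
    (h : ∀ a, g (N487b59b3.bitEncode a) = N487b59b3.bitEncode (f a)) :
    N68a2faeb.IsPolyTime f := by
  rw [isPolyTime_iff]
  have h1 := (isPoly_of_PT hg).precomp (Z := fun _ : α => True)
    (fun a => N487b59b3.bitEncode a) (fun _ _ => trivial)
  exact h1.congr fun a _ => h a

end Pool.Agent.Lib.PLib
end

section

/-!
Parsing the bit string encodings of the Prelude in typed polynomial time, and criteria for
membership in P and NP and for polynomial time reductions.
-/

set_option autoImplicit false
set_option linter.unusedSimpArgs false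
set_option linter.unusedVariables false
set_option linter.unusedSectionVars false

namespace Pool.Agent.Lib.PLib

open Pool.Agent.Lib.MP_20e1d9_lc (PT PT.of_eq PT.of_word PT.size)
open Pool.Agent.Lib.MP_20e1d9_lc.PL
open Pool.Agent.Lib.MP_9c2350_lc
open N487b59b3 (bitEncode delimit)

variable {α β γ σ δ : Type} [Enc α] [Enc β] [Enc γ] [Enc σ] [Enc δ]

/-! ### Splitting -/

/-- One step of the parser of a sequence of delimited blocks. -/
def bstep (s : Bool × List Bool × List (List Bool)) (b : Bool) :
    Bool × List Bool × List (List Bool) :=
  if s.1 = true then (false, b :: s.2.1, s.2.2)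
  else if b = true then (true, s.2.1, s.2.2)
  else (false, [], s.2.1.reverse :: s.2.2)

/-- The blocks of a sequence of delimited blocks. -/
def blocks (x : List Bool) : List (List Bool) :=
  (x.foldl bstep (false, [], [])).2.2.reverse

theorem sz_bstep_le (s : Bool × List Bool × List (List Bool)) (b : Bool) :
    sz (bstep s b) ≤ sz s + 8 := by
  obtain ⟨m, c, o⟩ := s
  have hb := sz_bool b
  have hm := sz_bool m
  have ht : sz true = 3 := rfl
  have hf : sz false = 1 := rfl
  have h1 : 1 ≤ sz m := sz_pos m
  have hn : sz ([] : List Bool) = 1 := rfl
  unfold bstep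
  simp only
  split_ifs
  · rw [sz_pair, sz_pair, sz_pair, sz_pair, sz_cons]; omega
  · rw [sz_pair, sz_pair, sz_pair, sz_pair]; omega
  · rw [sz_pair, sz_pair, sz_pair, sz_pair, sz_cons, sz_reverse]; omega

@[fun_prop]
theorem blocksPT {f : α → List Bool} (hf : PT f) : PT (fun x => blocks (f x)) := by
  have h : PT fun x : List Bool => x.foldl bstep (false, [], []) := by
    refine foldlA (step := fun _ s b => bstep s b) (by fun_prop) (by fun_prop) ?_
      (PB.const 8) (fun x s b _ => sz_bstep_le s b)
    unfold bstep
    fun_prop
  have h2 : PT blocks := by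
    unfold blocks
    fun_prop
  exact h2.comp hf

theorem foldl_bstep_delimit (w c : List Bool) (o : List (List Bool)) :
    (delimit w).foldl bstep (false, c, o) = (false, [], (c.reverse ++ w) :: o) := by
  induction w generalizing c with
  | nil => simp [N487b59b3.delimit, bstep]
  | cons b w ih =>
    have : (delimit (b :: w)).foldl bstep (false, c, o) =
        (delimit w).foldl bstep (false, b :: c, o) := rfl
    rw [this, ih]
    simp

theorem blocks_flatten (l : List (List Bool)) : blocks ((l.map delimit).flatten) = l := by
  have key : ∀ (l o : List (List Bool)), ((l.map delimit).flatten).foldl bstep (false, [], o) =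
      (false, [], l.reverse ++ o) := by
    intro l
    induction l with
    | nil => intro o; rfl
    | cons w l ih =>
      intro o
      rw [List.map_cons, List.flatten_cons, List.foldl_append, foldl_bstep_delimit, ih]
      simp
  unfold blocks
  rw [key]
  simp

/-- One step of the parser of a delimited block followed by a word. -/
def pstep2 (s : Option Bool × List Bool × List Bool) (b : Bool) :
    Option Bool × List Bool × List Bool :=
  if s.1 = none then (none, s.2.1, b :: s.2.2)
  else if s.1 = some true then (some false, b :: s.2.1, s.2.2)
  else if b = true then (some true, s.2.1, s.2.2)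
  else (none, s.2.1, s.2.2)

/-- A delimited block followed by a word. -/
def split2 (x : List Bool) : List Bool × List Bool :=
  ((x.foldl pstep2 (some false, [], [])).2.1.reverse,
    (x.foldl pstep2 (some false, [], [])).2.2.reverse)

theorem sz_some (a : α) : sz (some a) = sz a + 2 := by
  show sz [a] = _
  rw [sz_cons, sz_nil]

theorem sz_none : sz (none : Option α) = 1 := rfl

theorem sz_pstep2_le (s : Option Bool × List Bool × List Bool) (b : Bool) :
    sz (pstep2 s b) ≤ sz s + 8 := by
  obtain ⟨m, c, o⟩ := s
  have hb := sz_bool b
  have h1 : 1 ≤ sz m := sz_pos m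
  have ht : sz (some true) = 5 := rfl
  have hf : sz (some false) = 3 := rfl
  have hn : sz (none : Option Bool) = 1 := rfl
  unfold pstep2
  simp only
  split_ifs
  · rw [sz_pair, sz_pair, sz_pair, sz_pair, sz_cons]; omega
  · rw [sz_pair, sz_pair, sz_pair, sz_pair, sz_cons]; omega
  · rw [sz_pair, sz_pair, sz_pair, sz_pair]; omega
  · rw [sz_pair, sz_pair, sz_pair, sz_pair]; omega

@[fun_prop]
theorem split2PT {f : α → List Bool} (hf : PT f) : PT (fun x => split2 (f x)) := by
  have h : PT fun x : List Bool => x.foldl pstep2 (some false, [], []) := by
    refine foldlA (step := fun _ s b => pstep2 s b) (by fun_prop) (by fun_prop) ?_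
      (PB.const 8) (fun x s b _ => sz_pstep2_le s b)
    unfold pstep2
    fun_prop
  have h2 : PT split2 := by
    unfold split2
    fun_prop
  exact h2.comp hf

theorem split2_delimit (w v : List Bool) : split2 (delimit w ++ v) = (w, v) := by
  have h1 : ∀ c : List Bool, (delimit w).foldl pstep2 (some false, c, []) =
      (none, w.reverse ++ c, []) := by
    induction w with
    | nil => intro c; rfl
    | cons b w ih =>
      intro c
      have : (delimit (b :: w)).foldl pstep2 (some false, c, []) =
          (delimit w).foldl pstep2 (some false, b :: c, []) := rfl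
      rw [this, ih]
      simp
  have h2 : ∀ c o : List Bool, v.foldl pstep2 (none, c, o) = (none, c, v.reverse ++ o) := by
    induction v with
    | nil => intro c o; rfl
    | cons b v ih =>
      intro c o
      have : (b :: v).foldl pstep2 (none, c, o) = v.foldl pstep2 (none, c, b :: o) := rfl
      rw [this, ih]
      simp
  unfold split2
  rw [List.foldl_append, h1, h2]
  simp

/-! ### Parsers -/

/-- Types with a polynomial time encoding and a polynomial time parser. -/
class Cod (α : Type) [Enc α] [N487b59b3 α] where
  /-- the parser -/
  par : List Bool → α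
  par_enc : ∀ a : α, par (bitEncode a) = a
  parPT : PT par
  encPT : PT (fun a : α => bitEncode a)

section

variable [N487b59b3 α] [N487b59b3 β] [N487b59b3 γ] [Cod α] [Cod β] [Cod γ]

@[fun_prop]
theorem par_PT {f : δ → List Bool} (hf : PT f) : PT (fun x => (Cod.par (f x) : α)) :=
  (Cod.parPT).comp hf

@[fun_prop]
theorem enc_PT {f : δ → α} (hf : PT f) : PT (fun x => bitEncode (f x)) :=
  (Cod.encPT).comp hf

@[fun_prop]
theorem delimitPT {f : δ → List Bool} (hf : PT f) : PT (fun x => delimit (f x)) := by
  have h : PT fun x => ((f x).flatMap fun b => [true, b]) ++ [false] := by fun_prop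
  exact h.of_eq fun x => (PolyTime.delimit_eq_flatMap _).symm

instance : Cod Bool where
  par l := l.headD false
  par_enc a := rfl
  parPT := by fun_prop
  encPT := by
    have h : PT fun a : Bool => [a] := by fun_prop
    exact h

instance : Cod (List α) where
  par l := (blocks l).map Cod.par
  par_enc a := by
    have : bitEncode a = ((a.map bitEncode).map delimit).flatten := rfl
    rw [this, blocks_flatten, List.map_map]
    conv_rhs => rw [← List.map_id a]
    exact List.map_congr_left fun x _ => Cod.par_enc x
  parPT := by fun_prop
  encPT := by
    have h : PT fun a : List α => a.flatMap fun b => delimit (bitEncode b) := by fun_prop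
    refine h.of_eq fun a => ?_
    have : bitEncode a = ((a.map bitEncode).map delimit).flatten := rfl
    rw [this, List.map_map, List.flatMap_def]
    rfl

instance : Cod (α × β) where
  par l := (Cod.par (split2 l).1, Cod.par (split2 l).2)
  par_enc a := by
    have : bitEncode a = delimit (bitEncode a.1) ++ bitEncode a.2 := rfl
    rw [this, split2_delimit, Cod.par_enc, Cod.par_enc]
  parPT := pair (par_PT (fst (split2PT id))) (par_PT (snd (split2PT id)))
  encPT := by
    have h : PT fun a : α × β => delimit (bitEncode a.1) ++ bitEncode a.2 := by fun_prop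
    exact h

/-! ### Criteria -/

/-- A typed polynomial time function is polynomial time computable in the sense of the
Prelude. -/
theorem isPolyTime_of_PT {f : α → β} (hf : PT f) : N68a2faeb.IsPolyTime f := by
  refine isPolyTime_of_PT_word (g := fun x => bitEncode (f (Cod.par x))) ?_ ?_
  · have h1 : PT fun x : List Bool => f (Cod.par x) := hf.comp Cod.parPT
    exact enc_PT h1
  · intro a
    rw [Cod.par_enc]

/-- The word is the code of an element. -/
theorem isCode_iff (x : List Bool) : bitEncode (Cod.par x : α) = x ↔ ∃ a : α, x = bitEncode a :=
  ⟨fun h => ⟨_, h.symm⟩, by rintro ⟨a, rfl⟩; rw [Cod.par_enc]⟩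

/-- A criterion for membership in P. -/
theorem mem_P {L : N68a2faeb.DecisionProblem} {g : α → Bool} (hg : PT g)
    (h : ∀ x, L x = true ↔ ∃ a : α, x = bitEncode a ∧ g a = true) : L ∈ N68a2faeb.P := by
  show N68a2faeb.IsPolyTime L
  have h1 : PT fun x : List Bool => g (Cod.par x) := hg.comp Cod.parPT
  have h2 : PT fun x : List Bool => decide (bitEncode (Cod.par x : α) = x) && g (Cod.par x) := by
    fun_prop
  have e : L = fun x : List Bool => decide (bitEncode (Cod.par x : α) = x) && g (Cod.par x) := by
    funext x
    rw [Bool.eq_iff_iff, h x, Bool.and_eq_true, decide_eq_true_iff]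
    constructor
    · rintro ⟨a, rfl, ha⟩
      rw [Cod.par_enc]
      exact ⟨rfl, ha⟩
    · rintro ⟨h1, h2⟩
      exact ⟨_, h1.symm, h2⟩
  rw [e]
  exact isPolyTime_of_PT h2

/-- A criterion for membership in NP. -/
theorem mem_NP {L : N68a2faeb.DecisionProblem} {g : α × β → Bool} (hg : PT g) (q : Polynomial ℕ)
    (h : ∀ x, L x = true ↔ ∃ (a : α) (b : β), x = bitEncode a ∧
      (bitEncode b).length ≤ q.eval x.length ∧ g (a, b) = true) : L ∈ N68a2faeb.NP := by
  have h1 : PT fun x : List Bool × List Bool => g (Cod.par x.1, Cod.par x.2) :=
    hg.comp (f := g) (g := fun x : List Bool × List Bool => ((Cod.par x.1 : α), (Cod.par x.2 : β)))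
      (by fun_prop)
  have h2 : PT fun x : List Bool × List Bool => decide (bitEncode (Cod.par x.1 : α) = x.1) &&
      (decide (bitEncode (Cod.par x.2 : β) = x.2) && g (Cod.par x.1, Cod.par x.2)) := by
    fun_prop
  refine ⟨q, fun x => decide (bitEncode (Cod.par x.1 : α) = x.1) &&
      (decide (bitEncode (Cod.par x.2 : β) = x.2) && g (Cod.par x.1, Cod.par x.2)),
    isPolyTime_of_PT h2, fun x => ?_⟩
  rw [h x]
  constructor
  · rintro ⟨a, b, rfl, hb, hab⟩
    refine ⟨bitEncode b, hb, ?_⟩
    simp only [Cod.par_enc, hab]
    simp
  · rintro ⟨w, hw, hR⟩
    simp only [Bool.and_eq_true, decide_eq_true_iff] at hR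
    exact ⟨Cod.par x, Cod.par w, hR.1.symm, by rw [hR.2.1]; exact hw, hR.2.2⟩

/-- A criterion for polynomial time reductions. -/
theorem reducible {L L' : N68a2faeb.DecisionProblem} {f : List Bool → List Bool} (hf : PT f)
    (h : ∀ x, L x = L' (f x)) : N793a5b8e.ManyOneReducible L L' :=
  ⟨f, isPolyTime_of_PT hf, h⟩

end

/-! ### Lengths of codes -/

section

variable [N487b59b3 α] [N487b59b3 β]

theorem length_bitEncode_list_le (l : List α) (B : ℕ) (h : ∀ a ∈ l, (bitEncode a).length ≤ B) :
    (bitEncode l).length ≤ l.length * (2 * B + 1) := by
  have e : bitEncode l = ((l.map bitEncode).map delimit).flatten := rfl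
  rw [e]
  clear e
  induction l with
  | nil => simp
  | cons a l ih =>
    have h1 := h a (by simp)
    have h2 := ih fun b hb => h b (by simp [hb])
    have h3 : (l.length + 1) * (2 * B + 1) = l.length * (2 * B + 1) + (2 * B + 1) :=
      Nat.succ_mul _ _
    rw [List.map_cons, List.map_cons, List.flatten_cons, List.length_append,
      N487b59b3.length_delimit, List.length_cons, h3]
    omega

theorem length_le_bitEncode (l : List α) : l.length ≤ (bitEncode l).length := by
  have e : bitEncode l = ((l.map bitEncode).map delimit).flatten := rfl
  rw [e]
  have := N487b59b3.length_le_length_flatten_delimit (l.map bitEncode)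
  rwa [List.length_map] at this

theorem length_bitEncode_of_mem {l : List α} {a : α} (h : a ∈ l) :
    (bitEncode a).length ≤ (bitEncode l).length := by
  have e : bitEncode l = ((l.map bitEncode).map delimit).flatten := rfl
  rw [e]
  clear e
  induction l with
  | nil => simp at h
  | cons b l ih =>
    rw [List.map_cons, List.map_cons, List.flatten_cons, List.length_append,
      N487b59b3.length_delimit]
    rcases List.mem_cons.1 h with rfl | h
    · omega
    · have := ih h
      omega

theorem length_bitEncode_pair (a : α) (b : β) :
    (bitEncode (a, b)).length = 2 * (bitEncode a).length + 1 + (bitEncode b).length := by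
  have : bitEncode (a, b) = delimit (bitEncode a) ++ bitEncode b := rfl
  rw [this, List.length_append, N487b59b3.length_delimit]

theorem length_bitEncode_bool (b : Bool) : (bitEncode b).length = 1 := rfl

theorem length_bitEncode_bits (l : List Bool) : (bitEncode l).length = 3 * l.length := by
  have e : bitEncode l = ((l.map bitEncode).map delimit).flatten := rfl
  rw [e]
  clear e
  induction l with
  | nil => rfl
  | cons b l ih =>
    rw [List.map_cons, List.map_cons, List.flatten_cons, List.length_append, ih,
      N487b59b3.length_delimit, List.length_cons, length_bitEncode_bool]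
    ring

end

end Pool.Agent.Lib.PLib
end
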